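import Pool.Agent.Helper91.GU.StF

/-!
# Project GU, module F1
-/

set_option autoImplicit false

namespace Pool.Agent.Helper27.GU

open Polynomial Pool.Agent.Helper91.GU

universe u

theorem f1_aux (L : Type u) [CommRing L] (m : ℕ) (hm : IsUnit (m : L)) : ∀ N : ℕ,
    ∃ p q : L[X], (1 - X) * p ^ m = 1 - X ^ (N + 1) * q ∧ p.coeff 0 = 1 := by
  obtain ⟨mi, hmi⟩ := hm.exists_right_inv
  intro N
  induction N with
  | zero =>
    refine ⟨1, 1, ?_, ?_⟩
    · simp
    · simp
  | succ N ih =>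
    obtain ⟨p, q, h1, h0⟩ := ih
    set c : L := q.coeff 0 with hc
    set y : L[X] := C (c * mi) * X ^ (N + 1) with hy
    obtain ⟨k, hk⟩ := Polynomial.powAddExpansion p y m
    set Q : L[X] := q - C c * p ^ (m - 1) * (1 - X) - (1 - X) * k * C (c * mi) ^ 2 * X ^ (N + 1)
      with hQ
    have hQ0 : Q.coeff 0 = 0 := by
      rw [hQ]
      simp only [coeff_zero_eq_eval_zero] at *
      simp [h0, hc]
    obtain ⟨Q', hQ'⟩ := Polynomial.X_dvd_iff.2 hQ0
    refine ⟨p + y, Q', ?_, ?_⟩
    · have e1 : (C (m : L) : L[X]) * C (c * mi) = C c := by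
        rw [← C_mul]
        congr 1
        calc (m : L) * (c * mi) = c * (m * mi) := by ring
          _ = c := by rw [hmi, mul_one]
      have e2 : ((m : ℕ) : L[X]) = C (m : L) := by simp
      have h3 : (1 - X) * (p + y) ^ m = 1 - X ^ (N + 1) * Q := by
        rw [hk, hQ, e2, hy]
        linear_combination h1 + (1 - X) * p ^ (m - 1) * X ^ (N + 1) * e1
      rw [h3, hQ']
      ring
    · rw [coeff_add, h0, hy]
      simp

theorem hF1 : StF1.{u} := by
  intro L _ m hm N
  rcases N with _ | N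
  · exact ⟨1, X, by simp, by simp⟩
  · obtain ⟨p, q, h1, _⟩ := f1_aux L m hm N
    set p' : L[X] := p + C (1 - p.eval 1) * X ^ (N + 1) with hp'
    have hd : p' - p ∣ p' ^ m - p ^ m := sub_dvd_pow_sub_pow p' p m
    obtain ⟨r, hr⟩ := hd
    refine ⟨p', q - (1 - X) * C (1 - p.eval 1) * r, ?_, ?_⟩
    · have e1 : p' - p = C (1 - p.eval 1) * X ^ (N + 1) := by rw [hp']; ring
      rw [e1] at hr
      linear_combination h1 + (1 - X) * hr
    · rw [hp']
      simp

end Pool.Agent.Helper27.GU
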