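import Pool.Agent.Helper91.GU.StF

/-!
# Project GU, module F3c
-/

set_option autoImplicit false

namespace Pool.Agent.Helper27.GU

open Polynomial Pool.Agent.Helper91.GU

universe u

theorem hF3c (hF3 : StF3.{u}) : StF3c.{u} := by
  intro L _ I k₀ a s b κ g hD p G q' hG N
  obtain ⟨h1, h2⟩ := hF3 L I k₀ a s b κ g hD p G q' hG N
  obtain ⟨hp1, hPG, _⟩ := hG
  set P : (L[X] ⧸ I)[X] := (p.map (algebraMap L (L[X] ⧸ I))) ^ (s + 1).factorial with hP
  have hev : P.eval 1 = 1 := by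
    rw [hP, eval_pow]
    have : (p.map (algebraMap L (L[X] ⧸ I))).eval 1 = 1 := by
      have h3 := Polynomial.eval_map_apply (f := algebraMap L (L[X] ⧸ I)) (x := (1 : L)) (p := p)
      rw [map_one, hp1, map_one] at h3
      exact h3
    rw [this, one_pow]
  have hcop : IsCoprime (1 - X : (L[X] ⧸ I)[X]) P := by
    have hr : IsRoot (P - 1) (1 : L[X] ⧸ I) := by
      rw [IsRoot.def, eval_sub, hev, eval_one, sub_self]
    obtain ⟨r, hr⟩ := Polynomial.dvd_iff_isRoot.2 hr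
    refine ⟨r, 1, ?_⟩
    rw [C_1] at hr
    linear_combination hr
  refine ⟨?_, ?_⟩
  · intro P₁ P₂
    obtain ⟨u, v, huv⟩ := hcop
    obtain ⟨f, hf⟩ := h2 (P₂ * (u * (1 - X)) + P₁ * (v * P))
    rw [hPG] at hf
    refine ⟨f, ?_, ?_⟩
    · have h3 := dvd_trans (dvd_mul_right (1 - X) P) hf
      have h4 : (1 - X : (L[X] ⧸ I)[X]) ∣ (P₂ * (u * (1 - X)) + P₁ * (v * P)) - P₁ :=
        ⟨P₂ * u - P₁ * u, by linear_combination P₁ * huv⟩
      have h5 := dvd_add h3 h4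
      rwa [sub_add_sub_cancel] at h5
    · have h3 := dvd_trans (dvd_mul_left P (1 - X)) hf
      have h4 : P ∣ (P₂ * (u * (1 - X)) + P₁ * (v * P)) - P₂ :=
        ⟨P₁ * v - P₂ * v, by linear_combination P₂ * huv⟩
      have h5 := dvd_add h3 h4
      rwa [sub_add_sub_cancel] at h5
  · intro f
    rw [h1 f, hPG]
    have h6 : P ∣ (1 - X) * P := ⟨1 - X, by ring⟩
    have h7 : (1 - X : (L[X] ⧸ I)[X]) ∣ (1 - X) * P := ⟨P, rfl⟩
    constructor
    · intro h
      exact ⟨dvd_trans h7 h, dvd_trans h6 h⟩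
    · rintro ⟨h3, h4⟩
      exact hcop.mul_dvd h3 h4

end Pool.Agent.Helper27.GU
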