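import Pool.Agent.Helper91.GU.StF

/-!
# Project GU, module F4a
-/

set_option autoImplicit false

namespace Pool.Agent.Helper27.GU

open Polynomial Pool.Agent.Helper91.GU

universe u

/-- the homogenised polynomial `∑_{l ≤ n} P_l v^l w^{n-l} X^l` -/
noncomputable def homR {L : Type u} [CommRing L] (P : L[X]) (v w : L) (n : ℕ) : L[X] :=
  ∑ l ∈ Finset.range (n + 1), C (P.coeff l * v ^ l * w ^ (n - l)) * X ^ l

/-- evaluation of the homogenised polynomial in a ring where `w` is a unit with inverse `wi` -/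
theorem homR_eval {L : Type u} [CommRing L] (P : L[X]) (v w : L) (n : ℕ) (hn : P.natDegree ≤ n)
    {F : Type u} [CommRing F] (φ : L[X] →+* F) (wi : F) (hw : φ (C w) * wi = 1) :
    φ (homR P v w n) = φ (C w) ^ n * P.eval₂ (φ.comp C) (φ (C v) * φ X * wi) := by
  rw [homR, map_sum, Polynomial.eval₂_eq_sum_range' _ (Nat.lt_succ_of_le hn), Finset.mul_sum]
  refine Finset.sum_congr rfl fun l hl => ?_
  have hl' : l ≤ n := Nat.lt_succ_iff.1 (Finset.mem_range.1 hl)
  obtain ⟨d, rfl⟩ := Nat.exists_eq_add_of_le hl'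
  have e1 : (φ (C w) * wi) ^ l = 1 := by rw [hw, one_pow]
  simp only [Nat.add_sub_cancel_left, map_mul, map_pow, RingHom.comp_apply]
  calc φ (C (P.coeff l)) * φ (C v) ^ l * φ (C w) ^ d * φ X ^ l
      = φ (C (P.coeff l)) * φ (C v) ^ l * φ (C w) ^ d * φ X ^ l * 1 := by rw [mul_one]
    _ = φ (C (P.coeff l)) * φ (C v) ^ l * φ (C w) ^ d * φ X ^ l * (φ (C w) * wi) ^ l := by
        rw [e1]
    _ = φ (C w) ^ (l + d) * (φ (C (P.coeff l)) * (φ (C v) * φ X * wi) ^ l) := by ring

theorem phiC {L : Type u} [CommRing L] (I : Ideal L[X]) (c : L) :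
    Phi I (C c) = C (Ideal.Quotient.mk I (C c)) := by simp [Phi]

theorem phiX {L : Type u} [CommRing L] (I : Ideal L[X]) :
    Phi I X = C (Ideal.Quotient.mk I X) * X := by simp [Phi]

theorem hF4a (hE0 : StE0.{u}) : StF4a.{u} := by
  intro L _ I k₀ a s b κ g hD p G q' hG N F _ _ hua hug huX hue
  obtain ⟨hYK, hbI, hκ, hgκ, hgJ⟩ := hD
  obtain ⟨hp1, hPG, hGq⟩ := hG
  obtain ⟨_, _, hxu, _, hker, _, _⟩ := hE0 L I k₀ a hYK
  set φ : L[X] →+* F := algebraMap L[X] F with hφ
  set m : ℕ := (s + 1).factorial with hm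
  obtain ⟨wi, hwi⟩ := hua.exists_right_inv
  -- the polynomial `P`
  set P : L[X] := (1 - X) * p ^ m with hP
  set n : ℕ := P.natDegree with hn
  set w : L := a k₀ with hw
  set v : L := a (k₀ + 1) with hv
  set R : L[X] := homR P v w n with hR
  set α : F := φ (C v) * φ X * wi with hα
  -- relation in the quotient
  have hrel : Ideal.Quotient.mk I (C v) * Ideal.Quotient.mk I X = Ideal.Quotient.mk I (C w) := by
    have h1 : Ideal.Quotient.mk I (1 - C w * X ^ k₀) = 0 :=
      Ideal.Quotient.eq_zero_iff_mem.2 (hYK k₀ le_rfl)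
    have h2 : Ideal.Quotient.mk I (1 - C v * X ^ (k₀ + 1)) = 0 :=
      Ideal.Quotient.eq_zero_iff_mem.2 (hYK (k₀ + 1) (Nat.le_succ _))
    simp only [map_sub, map_mul, map_pow, map_one] at h1 h2
    have h3 : IsUnit (Ideal.Quotient.mk I X ^ k₀) := hxu.pow k₀
    apply h3.mul_right_cancel
    linear_combination h1 - h2
  -- the image of `R` under `Phi`
  have hPhiR : Phi I R = C (Ideal.Quotient.mk I (C w)) ^ n * Phi I G := by
    have e1 : P.map (algebraMap L (L[X] ⧸ I)) = Phi I G := by
      rw [hPG, hP, Polynomial.map_mul, Polynomial.map_pow, Polynomial.map_sub, Polynomial.map_one,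
        Polynomial.map_X]
    rw [← e1, hR, homR, map_sum]
    have hdeg : (P.map (algebraMap L (L[X] ⧸ I))).natDegree < n + 1 :=
      Nat.lt_succ_of_le Polynomial.natDegree_map_le
    conv_rhs => rw [Polynomial.as_sum_range' _ (n + 1) hdeg]
    rw [Finset.mul_sum]
    refine Finset.sum_congr rfl fun l hl => ?_
    have hl' : l ≤ n := Nat.lt_succ_iff.1 (Finset.mem_range.1 hl)
    obtain ⟨d, hd⟩ := Nat.exists_eq_add_of_le hl'
    rw [hd, Nat.add_sub_cancel_left]
    have e2 : Phi I (C (P.coeff l * v ^ l * w ^ d) * X ^ l) =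
        C (Ideal.Quotient.mk I (C (P.coeff l))) * C (Ideal.Quotient.mk I (C v)) ^ l *
          C (Ideal.Quotient.mk I (C w)) ^ d * (C (Ideal.Quotient.mk I X) * X) ^ l := by
      rw [C_mul, C_mul, C_pow, C_pow, map_mul, map_mul, map_mul, map_pow, map_pow, map_pow,
        phiC, phiC, phiC, phiX]
    have e3 : algebraMap L (L[X] ⧸ I) (P.coeff l) = Ideal.Quotient.mk I (C (P.coeff l)) := rfl
    rw [e2, Polynomial.coeff_map, e3, ← C_mul_X_pow_eq_monomial]
    have e5 : (C (Ideal.Quotient.mk I (C w)) : (L[X] ⧸ I)[X]) =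
        C (Ideal.Quotient.mk I (C v)) * C (Ideal.Quotient.mk I X) := by
      rw [← C_mul, hrel]
    rw [e5]
    ring
  have hmem : C w ^ n * G - R ∈ (I.comap C).map C := by
    rw [← hker, map_sub, map_mul, map_pow, hPhiR]
    have e1 : Phi I (C w) = C (Ideal.Quotient.mk I (C w)) := by simp [Phi]
    rw [e1, sub_self]
  -- the ideal generated by the image of `J`
  set h : Fin s → F := fun j => φ (C (b j) * X ^ N) with hh
  have hJ : (I.comap C).map (φ.comp C) ≤ Ideal.span (Set.range h) := by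
    rw [Ideal.map_le_iff_le_comap]
    intro j hj
    rw [Ideal.mem_comap]
    have hj' : C j ∈ I := hj
    have h1 := hgJ j hj'
    rw [Ideal.mem_span_range_iff_exists_fun] at h1
    obtain ⟨c, hc⟩ := h1
    obtain ⟨gi, hgi⟩ := hug.exists_left_inv
    obtain ⟨xi, hxi⟩ := huX.exists_left_inv
    rw [Ideal.mem_span_range_iff_exists_fun]
    refine ⟨fun i => gi * φ (C (c i)) * xi ^ N, ?_⟩
    have h2 : φ (C g) * φ (C j) = ∑ i, φ (C (c i)) * φ (C (b i)) := by
      rw [← map_mul, ← C_mul, ← hc]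
      simp only [map_sum, map_mul]
    have h3 : xi ^ N * φ X ^ N = 1 := by rw [← mul_pow, hxi, one_pow]
    have h4 : φ (C j) = gi * (φ (C g) * φ (C j)) := by
      rw [← mul_assoc, hgi, one_mul]
    rw [RingHom.comp_apply, h4, h2, Finset.mul_sum]
    refine Finset.sum_congr rfl fun i _ => ?_
    simp only [hh, map_mul, map_pow]
    linear_combination gi * φ (C (c i)) * φ (C (b i)) * h3
  have hJ2 : φ (C w ^ n * G - R) ∈ Ideal.span (Set.range h) := by
    apply hJ
    rw [← Ideal.map_map]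
    exact Ideal.mem_map_of_mem φ hmem
  rw [Ideal.mem_span_range_iff_exists_fun] at hJ2
  obtain ⟨c, hc⟩ := hJ2
  set β : F := p.eval₂ (φ.comp C) α with hβ
  have hPα : P.eval₂ (φ.comp C) α = (1 - α) * β ^ m := by
    rw [hP, Polynomial.eval₂_mul, Polynomial.eval₂_pow, Polynomial.eval₂_sub, Polynomial.eval₂_one,
      Polynomial.eval₂_X]
  have hRe := homR_eval P v w n le_rfl φ wi hwi
  rw [← hR, ← hα, hPα] at hRe
  set e : F := 1 - α with he
  set μ : Fin s → F := fun i => wi ^ n * c i with hμ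
  have hwn : wi ^ n * φ (C w) ^ n = 1 := by rw [← mul_pow, mul_comm wi, hwi, one_pow]
  have hGe : φ G = β ^ m * e + ∑ i, h i * μ i := by
    have h1 : φ (C w ^ n * G - R) = φ (C w) ^ n * φ G - φ R := by
      rw [map_sub, map_mul, map_pow]
    rw [h1, hRe] at hc
    have h2 : ∑ i, h i * μ i = wi ^ n * ∑ i, c i * h i := by
      rw [Finset.mul_sum]
      refine Finset.sum_congr rfl fun i _ => ?_
      simp only [hμ]
      ring
    rw [h2, hc]
    linear_combination (φ G - e * β ^ m) * (-hwn)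
  have heu : IsUnit e := by
    have h1 : e = wi * φ (C w - C v * X) := by
      rw [map_sub, map_mul, he, hα]
      linear_combination (-1 : F) * hwi
    rw [h1]
    refine IsUnit.mul ?_ hue
    exact IsUnit.of_mul_eq_one (φ (C w)) (by rw [mul_comm]; exact hwi)
  set γ : Matrix (Fin (s + 1)) (Fin (s + 1)) F := Matrix.of fun i j =>
    if j = 0 then (Fin.cons e μ : Fin (s + 1) → F) i else if i = j then 1 else 0 with hγ
  refine ⟨β, h, γ, ?_, ?_⟩
  · have hdet : γ.det = e := by
      rw [Matrix.det_of_isLowerTriangular]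
      · rw [Fin.prod_univ_succ]
        have h1 : γ 0 0 = e := by simp [hγ]
        have h2 : ∀ i : Fin s, γ i.succ i.succ = 1 := by
          intro i
          simp [hγ, Fin.succ_ne_zero]
        rw [h1]
        simp [h2]
      · intro i j hij
        have hij' : i < j := hij
        have h1 : j ≠ 0 := by
          rintro rfl
          exact absurd hij' (Fin.not_lt_zero i)
        simp [hγ, h1, hij'.ne]
    rw [hdet]
    exact heu
  · funext j
    rw [Matrix.vecMul, dotProduct, Fin.sum_univ_succ]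
    refine Fin.cases ?_ (fun j => ?_) j
    · simp only [hγ, Matrix.of_apply, if_true, Fin.cons_zero, Fin.cons_succ, mp, crow]
      exact hGe
    · have h1 : (0 : Fin (s + 1)) ≠ j.succ := (Fin.succ_ne_zero j).symm
      simp only [hγ, Matrix.of_apply, Fin.succ_ne_zero, if_false, Fin.cons_zero, Fin.cons_succ, mp,
        crow, h1, mul_zero, zero_add, Fin.succ_inj, mul_ite, mul_one]
      rw [Finset.sum_ite_eq' Finset.univ j h]
      simp [hh]

end Pool.Agent.Helper27.GU
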